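import Pool.Agent.Helper17.SLD.Goals

/-!
# Project SLD: packet RG
-/

namespace Pool.Agent.Helper17.SLD.PkRG

open Pool.Agent.Helper17.SL Pool.Agent.Helper42.SLC
open Pool.Agent.Helper51.SigLeo Pool.Agent.Helper51.SixExp NumberField Module

universe u v w x y z

/-- If the vectors `g x` are on a line and the `f (r j) + g (r j)` are `n` independent vectors, then
there are `n - 1` independent vectors `f x`. -/
theorem la {k α : Type*} [Field k] {n : ℕ} (f g : α → Fin n → k)
    (hg : ∀ x y i j, g x i * g y j = g x j * g y i) (r : Fin n → α)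
    (hr : LinearIndependent k (fun j ↦ f (r j) + g (r j))) :
    ∃ v : Fin (n - 1) → α, LinearIndependent k (fun j ↦ f (v j)) := by
  classical
  obtain ⟨g0, hg0⟩ : ∃ g0 : Fin n → k, ∀ x, g x ∈ Submodule.span k {g0} := by
    by_cases h : ∃ x i, g x i ≠ 0
    · obtain ⟨x, i, hxi⟩ := h
      refine ⟨g x, fun y ↦ Submodule.mem_span_singleton.mpr ⟨g y i / g x i, ?_⟩⟩
      funext j
      have h1 := hg x y i j
      rw [Pi.smul_apply, smul_eq_mul]
      field_simp
      linear_combination -h1
    · push Not at h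
      refine ⟨0, fun x ↦ ?_⟩
      have : g x = 0 := funext fun i ↦ h x i
      rw [this]
      exact Submodule.zero_mem _
  set A : Submodule k (Fin n → k) := Submodule.span k (Set.range f) with hA
  have htop : A ⊔ Submodule.span k {g0} = ⊤ := by
    have h1 : Submodule.span k (Set.range (fun j ↦ f (r j) + g (r j))) = ⊤ :=
      hr.span_eq_top_of_card_eq_finrank' (by simp)
    rw [eq_top_iff, ← h1, Submodule.span_le]
    rintro _ ⟨j, rfl⟩
    exact Submodule.add_mem _ (Submodule.mem_sup_left (Submodule.subset_span ⟨r j, rfl⟩))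
      (Submodule.mem_sup_right (hg0 _))
  have hdim : n - 1 ≤ finrank k A := by
    have h1 := Submodule.finrank_add_le_finrank_add_finrank A (Submodule.span k {g0})
    rw [htop, finrank_top, Module.finrank_fin_fun] at h1
    have h2 : finrank k (Submodule.span k {g0}) ≤ 1 :=
      (finrank_span_le_card ({g0} : Set (Fin n → k))).trans (by simp)
    omega
  obtain ⟨b, hb, hspan, hli⟩ := exists_linearIndependent k (Set.range f)
  have hfin : Finite b := hli.finite
  have : Fintype b := Fintype.ofFinite b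
  have hcard : finrank k A = Fintype.card b := by
    rw [hA, ← hspan]
    have := finrank_span_eq_card hli
    rwa [Subtype.range_coe] at this
  have hle : Fintype.card (Fin (n - 1)) ≤ Fintype.card b := by
    rw [Fintype.card_fin, ← hcard]; exact hdim
  obtain ⟨e⟩ := Function.Embedding.nonempty_of_card_le hle
  choose v hv using fun j ↦ hb (e j).2
  refine ⟨v, ?_⟩
  have h3 : (fun j ↦ f (v j)) = fun j ↦ ((e j : b) : Fin n → k) := funext hv
  rw [h3]
  exact hli.comp e e.injective

theorem thm (hGB : S_GB.{v, w, y, z}) (hINC : S_INC.{u, v, w, x, z}) (hV1 : S_V1.{u, x, y, z}) :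
    S_RG.{u, v, w, x, y, z} := by
  intro F _ _ _ K _ _ _ H _ _ N _ _ _ _ _ _ _ _ _ _ _ _ Ω _ _ _ _ p _ k _ _ ιinf ιp S χ Λ θ θ' s n
    hFK hF hS hχ hcomp htw hev hinj
  classical
  have hchar : CharZero k := charZero_of_padic p (k := k)
  have hfdFN : FiniteDimensional F N := FiniteDimensional.right ℚ F N
  have hfdKH : FiniteDimensional K H := FiniteDimensional.right ℚ K H
  have hfdKN : FiniteDimensional K N := FiniteDimensional.right ℚ K N
  have : Fintype (H ≃ₐ[K] H) := Fintype.ofFinite _
  have hc : Fintype.card (F →+* ℂ) = n := by rw [NumberField.Embeddings.card, hF]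
  let e : Fin n ≃ (F →+* ℂ) := (Fintype.equivFinOfCardEq hc).symm
  have hex : ∀ i : Fin n, ∃ τ : N →+* Ω, ιinf.comp (τ.comp (algebraMap K N)) ∈ S ∧
      ιinf.comp (τ.comp (algebraMap F N)) = e i := by
    intro i
    obtain ⟨φ, hφS, hφ⟩ := hS.exists_mem (F := F) (K := K) (e i)
    obtain ⟨κ, hκ⟩ := exists_lift_embedding ιinf φ
    obtain ⟨τ, hτ⟩ := exists_extend_embedding (K := K) (H := N) κ
    refine ⟨τ, by rw [hτ, hκ]; exact hφS, ?_⟩
    have h1 : ιinf.comp (τ.comp (algebraMap F N)) =
        (ιinf.comp (τ.comp (algebraMap K N))).comp (algebraMap F K) := by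
      rw [IsScalarTower.algebraMap_eq F K N]; rfl
    rw [h1, hτ, hκ, hφ]
  choose τ hτS hτF using hex
  have hinjF : Function.Injective (fun i ↦ (τ i).comp (algebraMap F N)) := by
    intro i j hij
    have hij' : (τ i).comp (algebraMap F N) = (τ j).comp (algebraMap F N) := hij
    apply e.injective
    rw [← hτF i, ← hτF j, hij']
  refine ⟨τ, hinjF, ?_⟩
  have hK : finrank ℚ K = 2 * n := by
    rw [← finrank_mul_finrank ℚ F K, hF, hFK, mul_comm]
  have hres : ∀ i, ((τ i).comp (algebraMap H N)).comp (algebraMap K H) =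
      (τ i).comp (algebraMap K N) := fun i ↦ by
    rw [RingHom.comp_assoc, ← IsScalarTower.algebraMap_eq K H N]
  obtain ⟨q, hq⟩ := hGB K H Ω p k ιinf ιp S χ Λ n (fun i ↦ (τ i).comp (algebraMap H N)) hχ hK hS
    hinj (fun i ↦ by rw [hres]; exact hτS i) (by
      intro i j hij
      have hij' : ((τ i).comp (algebraMap H N)).comp (algebraMap K H) =
        ((τ j).comp (algebraMap H N)).comp (algebraMap K H) := hij
      rw [hres, hres] at hij'
      apply hinjF
      show (τ i).comp (algebraMap F N) = (τ j).comp (algebraMap F N)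
      rw [IsScalarTower.algebraMap_eq F K N, ← RingHom.comp_assoc, ← RingHom.comp_assoc, hij'])
  obtain ⟨C, hC0, hC⟩ := hINC F K H N k χ θ θ' hFK hcomp htw
  have hV := hV1 F N Ω p k ιp Λ θ' s hev
  refine la (fun v ↦ vec Λ θ (fun i ↦ ιp.comp (τ i)) v)
    (fun v ↦ vec Λ θ' (fun i ↦ ιp.comp (τ i)) v) (fun a b i j ↦ ?_) (fun j ↦ inclUnits H N (q j)) ?_
  · exact hV (ιp.comp (τ i)) (ιp.comp (τ j)) a b
  · have h1 : (fun j ↦ vec Λ θ (fun i ↦ ιp.comp (τ i)) (inclUnits H N (q j)) +
        vec Λ θ' (fun i ↦ ιp.comp (τ i)) (inclUnits H N (q j))) = fun j ↦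
        C • (fun i ↦ tw χ (logUnits Λ (ιp.comp ((τ i).comp (algebraMap H N)))) (q j) :
          Fin n → k) := by
      funext j i
      exact hC (logUnits Λ (ιp.comp (τ i))) (q j)
    rw [h1]
    exact hq.units_smul (fun _ ↦ Units.mk0 C hC0)

end Pool.Agent.Helper17.SLD.PkRG
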